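import Pool.Agent.Lib.MP_cd65c1_an.Final

/-!
# MP_cd65c1_an : entropy numbers of the classes `W^r_p` in `L_q` in all the extreme cases
`p = 1` or `q = ∞`, every dimension `d ≥ 3`, every `r > 1/p - 1/q`, `r > 0`
(the small ball problem of the Brownian sheet is the case `r = 1`, `p = 2`, `q = ∞`).

All definitions used in the statement are in this file.  The torus is `(ℝ/ℤ)^d` with its normalised
Haar measure; the variable of the problem file is `2π` times ours, which changes the norms by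
constant factors only.
-/

namespace Pool.Agent.Results.MP_cd65c1_an.EntropyNumbers

open MeasureTheory Filter Topology
open scoped ENNReal

/-- the `d`-dimensional torus `(ℝ/ℤ)^d` -/
abbrev Torus (d : ℕ) : Type := Fin d → UnitAddCircle

/-- the normalised Haar (Lebesgue) measure of the torus -/
noncomputable abbrev haar (d : ℕ) : Measure (Torus d) :=
  Measure.pi (fun _ : Fin d => (AddCircle.haarAddCircle : Measure UnitAddCircle))

/-- the representative in `[0,1)` of a point of `ℝ/ℤ` -/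
noncomputable def rep (t : UnitAddCircle) : ℝ := (AddCircle.equivIco (1 : ℝ) 0 t : ℝ)

/-- partial sums `1 + 2 Σ_{k=1}^{N} k^(-r) cos(2πkt - rπ/2)` of the univariate Bernoulli kernel -/
noncomputable def bernoulliSum (r : ℝ) (N : ℕ) (t : UnitAddCircle) : ℝ :=
  1 + 2 * ∑ k ∈ Finset.range N,
    ((k : ℝ) + 1) ^ (-r) * Real.cos (2 * Real.pi * ((k : ℝ) + 1) * rep t - r * Real.pi / 2)

/-- the univariate Bernoulli kernel `F_r` (limit of the partial sums) -/
noncomputable def bernoulli (r : ℝ) (t : UnitAddCircle) : ℝ :=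
  limUnder atTop (fun N : ℕ => bernoulliSum r N t)

/-- `F_r(x) = ∏_j F_r(x_j)` -/
noncomputable def kernel {d : ℕ} (r : ℝ) (x : Torus d) : ℝ := ∏ j, bernoulli r (x j)

/-- the convolution `F_r * φ` for complex valued `φ` -/
noncomputable def convC {d : ℕ} (r : ℝ) (φ : Torus d → ℂ) (x : Torus d) : ℂ :=
  ∫ y, ((kernel r (x - y) : ℝ) : ℂ) * φ y ∂(haar d)

/-- the convolution `F_r * φ` for real valued `φ` -/
noncomputable def convR {d : ℕ} (r : ℝ) (φ : Torus d → ℝ) (x : Torus d) : ℝ :=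
  ∫ y, kernel r (x - y) * φ y ∂(haar d)

/-- the Banach space `L_q` of complex valued functions on the torus -/
abbrev LqC (d : ℕ) (q : ℝ≥0∞) : Type := Lp ℂ q (haar d)

/-- the Banach space `L_q` of real valued functions on the torus -/
abbrev LqR (d : ℕ) (q : ℝ≥0∞) : Type := Lp ℝ q (haar d)

/-- the unit ball of `L_p`, complex valued functions -/
def ballC (d : ℕ) (p : ℝ≥0∞) : Set (Torus d → ℂ) :=
  {φ | MemLp φ p (haar d) ∧ eLpNorm φ p (haar d) ≤ 1}

/-- the unit ball of `L_p`, real valued functions -/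
def ballR (d : ℕ) (p : ℝ≥0∞) : Set (Torus d → ℝ) :=
  {φ | MemLp φ p (haar d) ∧ eLpNorm φ p (haar d) ≤ 1}

/-- the class `W^r_p = {F_r * φ : ‖φ‖_p ≤ 1}` as a subset of `L_q`, complex valued functions -/
def classC (d : ℕ) (r : ℝ) (p q : ℝ≥0∞) : Set (LqC d q) :=
  {f | ∃ φ ∈ ballC d p, f =ᵐ[haar d] convC r φ}

/-- the class `W^r_p = {F_r * φ : ‖φ‖_p ≤ 1}` as a subset of `L_q`, real valued functions -/
def classR (d : ℕ) (r : ℝ) (p q : ℝ≥0∞) : Set (LqR d q) :=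
  {f | ∃ φ ∈ ballR d p, f =ᵐ[haar d] convR r φ}

/-- the entropy numbers: infimum of the `ε > 0` such that `2^n` balls of radius `ε` cover `A` -/
noncomputable def entropy {X : Type*} [PseudoMetricSpace X] (n : ℕ) (A : Set X) : ℝ :=
  sInf {ε : ℝ | 0 < ε ∧ ∃ y : Fin (2 ^ n) → X, A ⊆ ⋃ j, Metric.closedBall (y j) ε}

/-- `ε_n(W^r_p, L_q)`, complex valued functions -/
noncomputable def epsC (d : ℕ) (r : ℝ) (p q : ℝ≥0∞) [Fact (1 ≤ q)] (n : ℕ) : ℝ :=
  entropy n (classC d r p q)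

/-- `ε_n(W^r_p, L_q)`, real valued functions -/
noncomputable def epsR (d : ℕ) (r : ℝ) (p q : ℝ≥0∞) [Fact (1 ≤ q)] (n : ℕ) : ℝ :=
  entropy n (classR d r p q)

/-- the order of decay:
* `n^(-r) (log n)^((d-1)r + 1)` for `p = 1`, `q = ∞`;
* `n^(-r) (log n)^((d-1)r + 1/2)` for all other `(p, q)` and `r > 1/2`;
* `n^(-1/2) (log n)^(d/2) (log log n)^(1/2)` for all other `(p, q)` and `r = 1/2`;
* `n^(-r) (log n)^((d-1)(1-r) + r)` for all other `(p, q)` and `r < 1/2`. -/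
noncomputable def order (d : ℕ) (p q : ℝ≥0∞) (r : ℝ) (n : ℕ) : ℝ :=
  if p = 1 ∧ q = ∞ then (n : ℝ) ^ (-r) * (Real.log n) ^ (((d : ℝ) - 1) * r + 1)
  else if 1 / 2 < r then (n : ℝ) ^ (-r) * (Real.log n) ^ (((d : ℝ) - 1) * r + 1 / 2)
  else if r = 1 / 2 then
    (n : ℝ) ^ (-r) * (Real.log n) ^ ((d : ℝ) / 2) * (Real.log (Real.log n)) ^ ((1 : ℝ) / 2)
  else (n : ℝ) ^ (-r) * (Real.log n) ^ (((d : ℝ) - 1) * (1 - r) + r)

/-- `a_n ≍ b_n`: two-sided estimate with positive constants, for all `n ≥ 3` -/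
def SameOrder (a b : ℕ → ℝ) : Prop :=
  ∃ c C : ℝ, 0 < c ∧ 0 < C ∧ ∀ n : ℕ, 3 ≤ n → c * b n ≤ a n ∧ a n ≤ C * b n

/-- For `d ≥ 3`, `1 ≤ p, q ≤ ∞` with `p = 1` or `q = ∞`, and `r > 0`, `r > 1/p - 1/q`: the series of the
Bernoulli kernel converges at every `t ≠ 0`, `F_r ∈ L_1`, `F_r * φ ∈ L_q` for every `φ ∈ L_p`, and the
entropy numbers of the class `W^r_p` in `L_q` are, up to constants independent of `n`, equal to
`order d p q r n`, for real and for complex valued functions. -/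
theorem result (d : ℕ) (hd : 3 ≤ d) (p q : ℝ≥0∞) [Fact (1 ≤ p)] [Fact (1 ≤ q)]
    (hpq : p = 1 ∨ q = ∞) (r : ℝ) (hr0 : 0 < r) (hr : (p⁻¹).toReal - (q⁻¹).toReal < r) :
    (∀ t : UnitAddCircle, t ≠ 0 →
      Tendsto (fun N : ℕ => bernoulliSum r N t) atTop (𝓝 (bernoulli r t))) ∧
    Integrable (kernel r : Torus d → ℝ) (haar d) ∧
    (∀ φ : Torus d → ℂ, MemLp φ p (haar d) → MemLp (convC r φ) q (haar d)) ∧
    (∀ φ : Torus d → ℝ, MemLp φ p (haar d) → MemLp (convR r φ) q (haar d)) ∧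
    SameOrder (epsR d r p q) (order d p q r) ∧ SameOrder (epsC d r p q) (order d p q r) := by
  obtain ⟨h1, h2, h3, h4, c, C, hc, hC, h5⟩ := MPcd65c1.final d hd p q hpq r hr0 hr
  have hR : classR d r p q = MPcd65c1.WRR d r p q := by
    ext f
    constructor
    · rintro ⟨φ, ⟨ha, hb⟩, h⟩
      exact ⟨φ, ha, hb, h⟩
    · rintro ⟨φ, ha, hb, h⟩
      exact ⟨φ, ⟨ha, hb⟩, h⟩
  have hCC : classC d r p q = MPcd65c1.WC d r p q := by
    ext f
    constructor
    · rintro ⟨φ, ⟨ha, hb⟩, h⟩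
      exact ⟨φ, ha, hb, h⟩
    · rintro ⟨φ, ha, hb, h⟩
      exact ⟨φ, ⟨ha, hb⟩, h⟩
  refine ⟨h1, h2, h3, h4, ⟨c, C, hc, hC, fun n hn => ?_⟩, ⟨c, C, hc, hC, fun n hn => ?_⟩⟩
  · have h6 := (h5 n hn).1
    rw [← hR] at h6
    exact h6
  · have h6 := (h5 n hn).2
    rw [← hCC] at h6
    exact h6

end Pool.Agent.Results.MP_cd65c1_an.EntropyNumbers
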